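import Pool.Agent.Q165.DA.Fin
import Pool.Agent.Q165.DA.TPcopy
import Pool.Agent.Q102.DA.ZB
import Pool.Agent.Q165.DA.Inv

/-!
# MP_d9ab47_co: asymptotic counts of 132-avoiding permutation powers (answer: the conjecture is false)

`Q165.DA.Omega T n p132` is the set of permutations of size `n` all whose powers with exponent in `T`
avoid 132.  The first asymptotic equivalence of the conjecture holds, the other two fail.
-/

namespace Pool.Agent.Results.MP_d9ab47_co.StrongCountsDiffer
open Filter Q165.DA

/-- The numbers of permutations of size `n` with the powers 1, 2, 3 avoiding 132 and with all powers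
avoiding 132 are asymptotically equal; neither is asymptotic to the number of permutations of size
`n - 1` with the powers 1, 2 avoiding 132, which is larger by the factor `21/20` for infinitely
many `n`. -/
theorem result :
    Tendsto (fun n => ((Omega {1, 2, 3} n p132).ncard : ℝ) / (Omega {t | 1 ≤ t} n p132).ncard)
      atTop (nhds 1) ∧
    (∃ᶠ n in atTop, (21 / 20 : ℝ) * (Omega {1, 2, 3} n p132).ncard < (Omega {1, 2} (n - 1) p132).ncard) ∧
    ¬ Tendsto (fun n => ((Omega {t | 1 ≤ t} n p132).ncard : ℝ) / (Omega {1, 2} (n - 1) p132).ncard)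
      atTop (nhds 1) ∧
    ¬ Tendsto (fun n => ((Omega {1, 2, 3} n p132).ncard : ℝ) / (Omega {1, 2} (n - 1) p132).ncard)
      atTop (nhds 1) :=
  final INV.inv (zb Q121.f01) tp3

end Pool.Agent.Results.MP_d9ab47_co.StrongCountsDiffer
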